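import Pool.Agent.Helper97.PH.P2p
import Pool.Agent.Helper1.PHI.Defs

/-!
# Sparseness of `phiG` for the sets which contain the third root only (MP_3f61ad_co)

Lemma P2+ (`PP.main`) applied to a balanced set `Y` of `phiG` with `k ∈ Y` and `i, j, m ∉ Y`.
-/

set_option autoImplicit false

namespace Pool.Agent.Helper97.PH

open SimpleGraph Pool.Agent.Helper57.TOK Pool.Agent.Helper57.TD Pool.Agent.Helper57.TOP
  Pool.Agent.Helper82.TK Pool.Agent.Helper1.TD Pool.Agent.Helper1.GL Pool.Agent.Helper75.SEP
  Pool.Agent.Helper1.SEP Pool.Agent.Helper1.PHI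

variable {V : Type*} {G : SimpleGraph V} {U A B : Set V} {i j k m : V}

lemma w3_of_cb [Finite V] (h : CB G U) : W3 G (One V) U where
  edge_mem := h.edge_mem
  deg2 := fun y hy => (by norm_num : 2 ≤ 3).trans (h.deg3 y hy)
  conn := h.conn
  idx := by
    intro z κ hκ
    refine h.ind3 z z κ ?_
    intro u v hu hv huv
    rw [Set.pair_eq_singleton] at hu hv
    exact add_eq_one_iff.1 (hκ u v hu hv huv).symm

/-- The sets with `k` only are sparse. -/
theorem k_only [Finite V] (K : Kp G U A B i j k) (h : CI G U) (hm : m ∈ B) (hk : TwoOut G B k)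
    {Y : Set V} (hY : Y ⊆ phiU A i j k m) (hY2 : 2 ≤ Y.ncard)
    (hN : (Nb (phiG G A i j k m) Y).ncard = 3) {κ : V → ZMod 2}
    (hb : BalOn (phiG G A i j k m) (One V) Y κ) (hkY : k ∈ Y) (hi : i ∉ Y) (hj : j ∉ Y)
    (hmY : m ∉ Y) : fden (phiG G A i j k m) Y ≤ beta κ (Nb (phiG G A i j k m) Y) := by
  classical
  by_contra hlt
  push Not at hlt
  set H := phiG G A i j k m with hH
  set T := Nb H Y with hT
  have hYS : Y ⊆ A ∪ {k} := by
    intro x hx
    rcases hY hx with (h1 | h1) | h1
    · exact Or.inl h1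
    · rcases h1 with h1 | h1 | h1
      · exact absurd (h1 ▸ hx) hi
      · exact absurd (h1 ▸ hx) hj
      · exact Or.inr h1
    · exact absurd ((Set.mem_singleton_iff.1 h1) ▸ hx) hmY
  have hY0 : Y \ {k} ⊆ A := by
    rintro x ⟨hx, hxk⟩
    exact (hYS hx).resolve_right hxk
  have hHadj : ∀ u v, u ∈ Y → (H.Adj u v ↔ G.Adj u v ∧ u ∈ A ∪ {i, j, k} ∧ v ∈ A ∪ {i, j, k}) := by
    intro u v hu
    have hui : u ≠ i := fun hh => hi (hh ▸ hu)
    have huj : u ≠ j := fun hh => hj (hh ▸ hu)
    have hum : u ≠ m := fun hh => hmY (hh ▸ hu)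
    constructor
    · intro h1
      rcases h1 with h1 | h1
      · exact h1
      · exfalso
        unfold phE at h1
        rw [SimpleGraph.fromEdgeSet_adj] at h1
        simp only [Set.mem_insert_iff, Set.mem_singleton_iff, Sym2.eq_iff] at h1
        rcases h1.1 with h2 | h2 | h2
        · rcases h2 with ⟨h2, -⟩ | ⟨h2, -⟩
          · exact hui h2
          · exact huj h2
        · rcases h2 with ⟨h2, -⟩ | ⟨h2, -⟩
          · exact hum h2
          · exact hui h2
        · rcases h2 with ⟨h2, -⟩ | ⟨h2, -⟩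
          · exact hum h2
          · exact huj h2
    · intro h1; exact Or.inl h1
  have hle : ∀ u v, u ∈ Y → H.Adj u v → G.Adj u v := fun u v hu h1 => ((hHadj u v hu).1 h1).1
  have hA : ∀ u v, u ∈ Y → u ≠ k → G.Adj u v → H.Adj u v := by
    intro u v hu huk huv
    have huA : u ∈ A := hY0 ⟨hu, huk⟩
    refine (hHadj u v hu).2 ⟨huv, Or.inl huA, ?_⟩
    rcases K.toSep3.nbA huA huv with h1 | h1 | h1 | h1
    · exact Or.inl h1
    · exact Or.inr (Or.inl h1)
    · exact Or.inr (Or.inr (Or.inl h1))
    · exact Or.inr (Or.inr (Or.inr h1))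
  have hkS : k ∈ A ∪ ({i, j, k} : Set V) := Or.inr (Or.inr (Or.inr rfl))
  have hkadj : ∀ v, v ∈ A ∪ {i, j, k} → G.Adj k v → H.Adj k v :=
    fun v hv hkv => (hHadj k v hkY).2 ⟨hkv, hkS, hv⟩
  have hUnotB : ∀ v, v ∈ U → v ∉ B → v ∈ A ∪ ({i, j, k} : Set V) := by
    intro v hv hvB
    rcases K.toSep3.cov v hv with h1 | h1 | h1 | h1 | h1
    · exact Or.inl h1
    · exact absurd h1 hvB
    · exact Or.inr (Or.inl h1)
    · exact Or.inr (Or.inr (Or.inl h1))
    · exact Or.inr (Or.inr (Or.inr h1))
  have hTS : ∀ v ∈ T, v ∈ A ∪ ({i, j, k} : Set V) := by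
    rintro v ⟨-, u, hu, huv⟩
    exact ((hHadj u v hu).1 huv).2.2
  have hP1 : ∀ Y' ⊆ U, 2 ≤ Y'.ncard → ∀ κ', BalOn G (One V) Y' κ' → 4 ≤ (Nb G Y').ncard := by
    intro Y' h1 h2 κ' h3
    exact h.P1 Y' h1 h2 κ' (fun u v hu huv => add_eq_one_iff.1 (h3 u v hu huv).symm)
  have hYk : insert k (Y \ {k}) = Y := by
    rw [Set.insert_sdiff_singleton, Set.insert_eq_of_mem hkY]
  have hPP : PP G U (Y \ {k}) k T κ :=
    { w3 := w3_of_cb h.toCB
      YU := hY0.trans K.toSep3.AU
      lU := K.toSep3.rootU h.edge_mem (Or.inr (Or.inr rfl))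
      TU := by
        rintro v ⟨-, u, hu, huv⟩
        exact h.edge_mem v u (hle u v hu huv).symm
      T3 := hN
      lY := fun hh => hh.2 rfl
      lT := fun hh => hh.1 hkY
      YT := fun t ht hh => ht.1 hh.1
      nb := by
        intro u hu v huv
        have h1 := hA u v hu.1 hu.2 huv
        by_cases hvY : v ∈ Y
        · by_cases hvk : v = k
          · exact Or.inr (Or.inl hvk)
          · exact Or.inl ⟨hvY, hvk⟩
        · exact Or.inr (Or.inr ⟨hvY, u, hu.1, h1⟩)
      bal := fun u v hu huv => hb u v hu.1 (hA u v hu.1 hu.2 huv)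
      ball := fun t ht hkt => (hb k t hkY (hkadj t (hTS t ht) hkt)).symm
      lnb := by
        obtain ⟨x, -, -, hx, -, hxB, -⟩ := hk
        have hxS := hUnotB x (h.edge_mem x k hx.symm) hxB
        have h1 := hkadj x hxS hx
        refine ⟨x, hx, ?_⟩
        by_cases hxY : x ∈ Y
        · exact Or.inl ⟨hxY, hx.ne.symm⟩
        · exact Or.inr ⟨hxY, k, hkY, h1⟩
      sparse := by
        intro Y' hs h2 h3 _
        exfalso
        have := hP1 Y' (hs.trans (hY0.trans K.toSep3.AU)) h2 κ
          (fun u v hu huv => hb u v (hs hu).1 (hA u v (hs hu).1 (hs hu).2 huv))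
        omega
      dens := by
        rw [hYk]
        have h1 : fO (lG G (Y \ {k}) k T) κ Y = fden H Y := by
          unfold fO fden rho
          have : EAt (oddG (lG G (Y \ {k}) k T) κ) Y = EAt H Y := by
            have main : ∀ u v, u ∈ Y → ((oddG (lG G (Y \ {k}) k T) κ).Adj u v ↔ H.Adj u v) := by
              intro u v hu
              rw [oddG_adj, lG_adj]
              constructor
              · rintro ⟨⟨g1, g2⟩, -⟩
                by_cases huk : u = k
                · subst huk
                  rcases g2 with g2 | g2 | g2 | g2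
                  · exact absurd rfl g2.2
                  · exact (hA v u g2.1 g2.2 g1.symm).symm
                  · exact hkadj v (hTS v g2.2) g1
                  · exact absurd g2.1 g1.ne.symm
                · exact hA u v hu huk g1
              · intro g1
                have g2 := hle u v hu g1
                refine ⟨⟨g2, ?_⟩, (hb u v hu g1).symm⟩
                by_cases huk : u = k
                · subst huk
                  by_cases hvY : v ∈ Y
                  · exact Or.inr (Or.inl ⟨hvY, g2.ne.symm⟩)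
                  · exact Or.inr (Or.inr (Or.inl ⟨rfl, hvY, u, hkY, g1⟩))
                · exact Or.inl ⟨hu, huk⟩
            ext e
            induction e using Sym2.ind with
            | _ u v =>
              rw [mem_EAt, mem_EAt]
              constructor
              · rintro ⟨g1, g2 | g2⟩
                · exact ⟨(main u v g2).1 g1, Or.inl g2⟩
                · exact ⟨((main v u g2).1 g1.symm).symm, Or.inr g2⟩
              · rintro ⟨g1, g2 | g2⟩
                · exact ⟨(main u v g2).2 g1, Or.inl g2⟩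
                · exact ⟨((main v u g2).2 g1.symm).symm, Or.inr g2⟩
          rw [this]
        rw [h1]
        linarith }
  rcases hPP.main with h1 | ⟨Y', κ', h1, h2, h3, h4⟩
  · exact h.noT h1
  · have := hP1 Y' h1 h2 κ' h3
    omega

end Pool.Agent.Helper97.PH
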