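import Pool.Agent.Helper97.PH.P2p
import Pool.Agent.Helper75.SEP.Numbers

/-!
# Lemma P2a (MP_3f61ad_co): an apex and one more vertex

`Nb G E = {l, a, t}`, `κ` is proper on the edges which meet `E` and avoid `a` and on `l t`,
`fden G E + [l a] + [l t] ≥ 3`. Then a path `l .. t` of the wrong weight which avoids `E` and `a`
gives a TOK4: Theorem D for `S = E ∪ {l}` with the terminals `ω`, the two copies of `a`, and `t`,
where `ω` is the second vertex of the path.
-/

set_option autoImplicit false

namespace Pool.Agent.Helper97.PH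

open SimpleGraph Pool.Agent.Helper57.TOK Pool.Agent.Helper57.TD Pool.Agent.Helper82.TK
  Pool.Agent.Helper1.TD Pool.Agent.Helper1.GL Pool.Agent.Helper73.C3 Pool.Agent.Helper75.SEP

variable {V : Type*}

/-- The frame of a terminal apex, local version. -/
theorem apex_frame_loc [Finite V] {G : SimpleGraph V} {c : Sym2 V → ZMod 2} {κ : V → ZMod 2}
    {W : Set V} {z a b : V}
    (hdeg : ∀ y ∈ W, 2 ≤ (G.neighborSet y).ncard)
    (hthree : ∀ Y ⊆ W, 2 ≤ Y.ncard → 3 ≤ (Nb G Y).ncard)
    (hN : Nb G W = {a, b, z}) (hab : a ≠ b) (haz : a ≠ z) (hbz : b ≠ z)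
    (hκ : ∀ u v, u ∈ W → v ≠ z → G.Adj u v → c s(u, v) = κ u + κ v)
    (hsp : ∀ Y ⊆ W, 2 ≤ Y.ncard → (Nb G Y).ncard = 3 → ∀ κ', BalOn G c Y κ' →
      fden (odG G c) Y ≤ beta κ' (Nb G Y))
    (hf : 2 ≤ fden (odG G c) W) :
    FrameE (spG (restr G W) c κ {z}) Prod.snd (z, 0) (z, 1) (lft κ a) (lft κ b) := by
  classical
  have haN : a ∈ Nb G W := by rw [hN]; simp
  have hbN : b ∈ Nb G W := by rw [hN]; simp
  have hzN : z ∈ Nb G W := by rw [hN]; simp
  have haW : a ∉ W := haN.1
  have hbW : b ∉ W := hbN.1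
  have hzW : z ∉ W := hzN.1
  have hκoff : BalOff (restr G W) c {z} κ := by
    intro u v hu hv huv
    rw [Set.mem_singleton_iff] at hu hv
    rcases huv.2 with h1 | h1
    · exact hκ u v h1 hv huv.1
    · rw [Sym2.eq_swap, add_comm]; exact hκ v u h1 hu huv.1.symm
  have hdis : Disjoint W ({z} : Set V) := by
    rw [Set.disjoint_left]
    rintro x hx hxz
    rw [Set.mem_singleton_iff] at hxz
    exact hzW (hxz ▸ hx)
  set Z : SimpleGraph (V × ZMod 2) := spG (restr G W) c κ {z} with hZ
  set T : Set (V × ZMod 2) := {(z, 0), (z, 1), lft κ a, lft κ b} with hT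
  set S : Set (V × ZMod 2) := lft κ '' W with hS
  have hTnd : T.ncard = 4 := by
    have h0 : (z, (0 : ZMod 2)) ≠ (z, 1) := fun h => zero_ne_one (congrArg Prod.snd h)
    have h1 : ∀ i : ZMod 2, (z, i) ≠ lft κ a := fun i h => haz (congrArg Prod.fst h).symm
    have h2 : ∀ i : ZMod 2, (z, i) ≠ lft κ b := fun i h => hbz (congrArg Prod.fst h).symm
    have h3 : lft κ a ≠ lft κ b := fun h => hab (lft_injective κ h)
    rw [hT, Set.ncard_insert_of_notMem, Set.ncard_insert_of_notMem, Set.ncard_pair h3]
    · simp only [Set.mem_insert_iff, Set.mem_singleton_iff, not_or]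
      exact ⟨h1 1, h2 1⟩
    · simp only [Set.mem_insert_iff, Set.mem_singleton_iff, not_or]
      exact ⟨h0, h1 0, h2 0⟩
  have hTmem : ∀ y : V × ZMod 2, (y.1 = z ∨ (y.1 = a ∧ y.2 = κ a) ∨ (y.1 = b ∧ y.2 = κ b)) →
      y ∈ T := by
    rintro ⟨v, i⟩ (h1 | ⟨h1, h2⟩ | ⟨h1, h2⟩)
    · simp only at h1
      subst h1
      rcases Helper82.TK.zmod2_cases i with rfl | rfl
      · exact Or.inl rfl
      · exact Or.inr (Or.inl rfl)
    · simp only at h1 h2
      subst h1 h2
      exact Or.inr (Or.inr (Or.inl rfl))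
    · simp only at h1 h2
      subst h1 h2
      exact Or.inr (Or.inr (Or.inr rfl))
  have hedge : ∀ x y, Z.Adj x y → x ∈ S ∪ T := by
    intro x y hxy
    by_cases hx : x.1 ∈ W
    · left
      refine ⟨x.1, hx, ?_⟩
      have h1 : x.1 ∉ ({z} : Set V) := fun h => hzW (h ▸ hx)
      rw [Prod.ext_iff]
      exact ⟨rfl, (hxy.2.2.1 h1).symm⟩
    · right
      have h1 : x.1 ∈ Nb G W := ⟨hx, y.1, hxy.1.2.resolve_left hx, hxy.1.1.symm⟩
      rw [hN] at h1
      apply hTmem
      rcases h1 with h1 | h1 | h1
      · right; left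
        refine ⟨h1, ?_⟩
        rw [hxy.2.2.1 (fun h => haz (h1.symm.trans h)), h1]
      · right; right
        refine ⟨h1, ?_⟩
        rw [hxy.2.2.1 (fun h => hbz (h1.symm.trans h)), h1]
      · exact Or.inl h1
  have hedgeS : ∀ x y, Z.Adj x y → x ∈ S ∨ y ∈ S := by
    have key : ∀ x y, Z.Adj x y → x.1 ∈ W → x ∈ S := by
      intro x y hxy hx
      refine ⟨x.1, hx, ?_⟩
      have h1 : x.1 ∉ ({z} : Set V) := fun h => hzW (h ▸ hx)
      rw [Prod.ext_iff]
      exact ⟨rfl, (hxy.2.2.1 h1).symm⟩
    intro x y hxy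
    rcases hxy.1.2 with h1 | h1
    · exact Or.inl (key x y hxy h1)
    · exact Or.inr (key y x hxy.symm h1)
  have hfst : ∀ Y ⊆ W, Prod.fst '' Nb Z (lft κ '' Y) = Nb G Y := by
    intro Y hY
    rw [hZ, fst_image_Nb hκoff (hdis.mono_left hY), Nb_restr G hY]
  have hNbcard : ∀ Y ⊆ W, (Nb G Y).ncard ≤ (Nb Z (lft κ '' Y)).ncard := by
    intro Y hY
    rw [← hfst Y hY]
    exact Set.ncard_image_le (Set.toFinite _)
  have hlift : ∀ Y' ⊆ S, ∃ Y ⊆ W, Y' = lft κ '' Y ∧ Y.ncard = Y'.ncard := by
    intro Y' hY'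
    obtain ⟨Y, hY, hYY⟩ := (Set.subset_image_iff).1 hY'
    exact ⟨Y, hY, hYY.symm, by rw [← hYY, Set.ncard_image_of_injective _ (lft_injective κ)]⟩
  have hdegS : ∀ s ∈ S, 2 ≤ (Z.neighborSet s).ncard := by
    rintro _ ⟨u, hu, rfl⟩
    have h1 := hdeg u hu
    have huz : u ∉ ({z} : Set V) := fun h => hzW (h ▸ hu)
    have h2 : G.neighborSet u = Prod.fst '' Z.neighborSet (lft κ u) := by
      ext v
      constructor
      · intro hv
        refine ⟨(v, κ u + c s(u, v)), ?_, rfl⟩
        rw [SimpleGraph.mem_neighborSet, hZ, spG_adj_lft hκoff huz]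
        exact ⟨⟨hv, Or.inl hu⟩, rfl⟩
      · rintro ⟨y, hy, rfl⟩
        exact hy.1.1
    rw [h2] at h1
    exact h1.trans (Set.ncard_image_le (Set.toFinite _))
  have hnotmono : ¬ Mono Prod.snd T := by
    intro hm
    have := hm (z, 0) (by simp [hT]) (z, 1) (by simp [hT])
    exact zero_ne_one this
  have hsoc : Soc false Z Prod.snd S T := by
    refine ⟨hTnd, ?_, hedge, hedgeS, ?_, ?_, ?_, hdegS, ?_⟩
    · rw [Set.disjoint_left]
      rintro _ ⟨u, hu, rfl⟩ hT'
      rcases hT' with h1 | h1 | h1 | h1
      · have h2 : u = z := congrArg Prod.fst h1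
        exact hzW (h2 ▸ hu)
      · have h2 : u = z := congrArg Prod.fst h1
        exact hzW (h2 ▸ hu)
      · have h2 : u = a := congrArg Prod.fst h1
        exact haW (h2 ▸ hu)
      · have h2 : u = b := congrArg Prod.fst (h1 : lft κ u = lft κ b)
        exact hbW (h2 ▸ hu)
    · show beta Prod.snd T + 1 ≤ fO Z Prod.snd S
      rw [beta_of_not_mono hnotmono, hTnd, hS, hZ, fO_lft hκoff hdis,
        fden_odG_restr G c subset_rfl]
      norm_num
      exact hf
    · intro h; exact absurd h (by decide)
    · intro Y' hY' hne hN3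
      obtain ⟨Y, hY, rfl, hcard⟩ := hlift Y' hY'
      have hdY := hdis.mono_left hY
      by_cases h2 : 2 ≤ Y.ncard
      · have hNG := (hNbcard Y hY).trans hN3
        have hNG3 := hthree Y hY h2
        have hNG' : (Nb G Y).ncard = 3 := by omega
        have hNZ : (Nb Z (lft κ '' Y)).ncard = 3 := by
          have := hNbcard Y hY
          omega
        have hinj : Set.InjOn Prod.fst (Nb Z (lft κ '' Y)) := by
          rw [← Set.ncard_image_iff (Set.toFinite _), hfst Y hY, hNG', hNZ]
        have hmem : ∀ {y : V × ZMod 2}, y ∈ Nb Z (lft κ '' Y) ↔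
            y.1 ∉ Y ∧ ∃ u ∈ Y, (restr G W).Adj u y.1 ∧ y.2 = κ u + c s(u, y.1) := by
          intro y
          rw [hZ]
          exact mem_Nb_lft hκoff hdY
        -- the colouring
        let κ' : V → ZMod 2 := fun v => if v ∈ Y then κ v else
          if (v, (1 : ZMod 2)) ∈ Nb Z (lft κ '' Y) then 1 else 0
        have hκN : ∀ y ∈ Nb Z (lft κ '' Y), κ' y.1 = y.2 := by
          intro y hy
          have hyY : y.1 ∉ Y := (hmem.1 hy).1
          show (if y.1 ∈ Y then κ y.1 else _) = _
          rw [if_neg hyY]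
          obtain ⟨a, i⟩ := y
          rcases Helper82.TK.zmod2_cases i with rfl | rfl
          · rw [if_neg]
            intro h3
            have := hinj hy h3 rfl
            rw [Prod.mk.injEq] at this
            exact zero_ne_one this.2
          · rw [if_pos hy]
        have hbal : BalOn G c Y κ' := by
          intro u v hu huv
          have e1 : κ' u = κ u := if_pos hu
          by_cases hv : v ∈ Y
          · have e2 : κ' v = κ v := if_pos hv
            rw [e1, e2]
            exact hκ u v (hY hu) (fun h => hzW (h ▸ hY hv)) huv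
          · have hm' : (v, κ u + c s(u, v)) ∈ Nb Z (lft κ '' Y) := by
              rw [hmem]
              exact ⟨hv, u, hu, ⟨huv, Or.inl (hY hu)⟩, rfl⟩
            have e2 := hκN _ hm'
            rw [e1, e2, ← add_assoc, zz, zero_add]
        have hs := hsp Y hY h2 hNG' κ' hbal
        rw [hZ, fO_lft hκoff hdY, fden_odG_restr G c hY, ← hZ]
        refine hs.trans (le_of_eq ?_)
        have hm : Mono κ' (Nb G Y) ↔ Mono Prod.snd (Nb Z (lft κ '' Y)) := by
          rw [← hfst Y hY]
          constructor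
          · intro hm x hx y hy
            rw [← hκN x hx, ← hκN y hy]
            exact hm _ ⟨x, hx, rfl⟩ _ ⟨y, hy, rfl⟩
          · rintro hm _ ⟨x, hx, rfl⟩ _ ⟨y, hy, rfl⟩
            rw [hκN x hx, hκN y hy]
            exact hm x hx y hy
        by_cases h3 : Mono κ' (Nb G Y)
        · rw [beta_of_mono h3, beta_of_mono (hm.1 h3), hNG', hNZ]
        · rw [beta_of_not_mono h3, beta_of_not_mono (fun h4 => h3 (hm.2 h4)), hNG', hNZ]
      · have h1 : (lft κ '' Y).ncard = 1 := by
          have := (Set.ncard_pos (Set.toFinite _)).2 hne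
          omega
        obtain ⟨s, hs⟩ := Set.ncard_eq_one.1 h1
        rw [hs]
        apply fO_singleton_le
        rw [← Set.ncard_pos (Set.toFinite _)]
        have := hdegS s (hY' (by rw [hs]; rfl))
        omega
    · intro Y' hY' h2
      obtain ⟨Y, hY, rfl, hcard⟩ := hlift Y' hY'
      rw [← hcard] at h2
      exact (hthree Y hY h2).trans (hNbcard Y hY)
  have hfr : AllFramesE Z Prod.snd T := theoremD _ _ _ _ hsoc
  exact hfr (z, 0) (by simp [hT]) (z, 1) (by simp [hT]) (lft κ a) (by simp [hT]) (lft κ b)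
    (by simp [hT]) (fun h => zero_ne_one (congrArg Prod.snd h))
    (fun h => haz (congrArg Prod.fst h).symm) (fun h => hbz (congrArg Prod.fst h).symm)
    (fun h => haz (congrArg Prod.fst h).symm) (fun h => hbz (congrArg Prod.fst h).symm)
    (fun h => hab (lft_injective κ h))


/-- The additional edge is replaced by a path of a larger graph. -/
theorem tok_of_cap_le {G Z : SimpleGraph V} {c : Sym2 V → ZMod 2} {κ : V → ZMod 2} {W : Set V}
    {z a b : V} (hZG : Z ≤ G) (hN : Nb Z W = {a, b, z}) (hab : a ≠ b)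
    (hT : HasTOK4s (capG Z W a b hab) (capL c κ a b)) (Q : G.Walk a b) (hQ : Q.IsPath)
    (hw : wt c Q = κ a + κ b + 1) (hs : ∀ x ∈ Q.support, x ∉ W ∧ x ≠ z) : HasTOK4s G c := by
  classical
  have haN : a ∈ Nb Z W := by rw [hN]; simp
  have hbN : b ∈ Nb Z W := by rw [hN]; simp
  have hsupp : ∀ x ∈ supp (capG Z W a b hab), x ∈ W ∨ x = a ∨ x = b ∨ x = z := by
    rintro x ⟨y, (⟨h1, h2⟩ | ⟨h1, -⟩ | ⟨h1, -⟩)⟩
    · by_cases hx : x ∈ W
      · exact Or.inl hx
      · right
        have h3 : x ∈ Nb Z W := ⟨hx, y, h2.resolve_left hx, h1.symm⟩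
        rw [hN] at h3
        exact h3
    · exact Or.inr (Or.inl h1)
    · exact Or.inr (Or.inr (Or.inl h1))
  refine HasTOK4s.subst (K := capG Z W a b hab) (φ := id) (lab := fun _ => s(a, b))
    (Set.injOn_id _) ?_ hT
  intro u w huw
  have main : ∀ R : G.Walk a b, R = Q → ∀ x ∈ R.support, x = a ∨ x = b ∨
      (s(a, b) = s(a, b) ∧ x ∉ id '' supp (capG Z W a b hab)) := by
    rintro R rfl x hx
    by_cases h1 : x = a
    · exact Or.inl h1
    by_cases h2 : x = b
    · exact Or.inr (Or.inl h2)
    refine Or.inr (Or.inr ⟨rfl, ?_⟩)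
    rw [Set.image_id]
    intro h3
    rcases hsupp x h3 with h4 | h4 | h4 | h4
    · exact (hs x hx).1 h4
    · exact h1 h4
    · exact h2 h4
    · exact (hs x hx).2 h4
  have key : capL c κ a b s(a, b) = κ a + κ b + 1 := by
    unfold capL; rw [if_pos rfl]
  rcases huw with h1 | ⟨rfl, rfl⟩ | ⟨rfl, rfl⟩
  · refine ⟨Walk.cons (hZG h1.1) Walk.nil, ?_, ?_, ?_⟩
    · rw [Walk.cons_isPath_iff]
      refine ⟨Walk.IsPath.nil, ?_⟩
      simp only [Walk.support_nil, List.mem_cons, List.not_mem_nil, or_false]
      exact h1.1.ne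
    · rw [wt_cons, wt_nil, add_zero]
      show c s(u, w) = capL c κ a b s(u, w)
      unfold capL
      rw [if_neg]
      intro h3
      rw [Sym2.eq_iff] at h3
      rcases h3 with ⟨h3, h4⟩ | ⟨h3, h4⟩ <;> rcases h1.2 with h5 | h5
      · exact haN.1 (h3 ▸ h5)
      · exact hbN.1 (h4 ▸ h5)
      · exact hbN.1 (h3 ▸ h5)
      · exact haN.1 (h4 ▸ h5)
    · intro x hx
      simp only [Walk.support_cons, Walk.support_nil, List.mem_cons, List.not_mem_nil,
        or_false] at hx
      rcases hx with h2 | h2
      · exact Or.inl h2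
      · exact Or.inr (Or.inl h2)
  · exact ⟨Q, hQ, by rw [key]; exact hw, main Q rfl⟩
  · refine ⟨Q.reverse, hQ.reverse, ?_, ?_⟩
    · rw [wt_reverse, Sym2.eq_swap, key]; exact hw
    · intro x hx
      rw [Walk.support_reverse, List.mem_reverse] at hx
      rcases main Q rfl x hx with h2 | h2 | h2
      · exact Or.inr (Or.inl h2)
      · exact Or.inl h2
      · exact Or.inr (Or.inr ⟨Sym2.eq_swap, h2.2⟩)

/-- **Lemma P2a.** -/
theorem apex_tok_l [Finite V] {G : SimpleGraph V} {U E : Set V} {l a t : V} {κ : V → ZMod 2}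
    (h : CB G U) (hE : E ⊆ U) (hN : Nb G E = {l, a, t}) (hla : l ≠ a) (hlt : l ≠ t)
    (hat : a ≠ t) (hκ : ∀ u v, u ∈ E → v ≠ a → G.Adj u v → κ u ≠ κ v)
    (hκl : G.Adj l t → κ l ≠ κ t)
    (hf : 3 ≤ fden G E + rr G l a + rr G l t)
    (Q : G.Walk l t) (hQ : Q.IsPath) (hw : wt (fun _ => 1) Q = κ l + κ t + 1)
    (hs : ∀ x ∈ Q.support, x ∉ E ∧ x ≠ a) : HasTOK4s G (fun _ => 1) := by
  classical
  have hlN : l ∈ Nb G E := by rw [hN]; simp
  have haN : a ∈ Nb G E := by rw [hN]; simp
  have htN : t ∈ Nb G E := by rw [hN]; simp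
  have hlE : l ∉ E := hlN.1
  have haE : a ∉ E := haN.1
  have htE : t ∉ E := htN.1
  have hNU : ∀ x ∈ Nb G E, x ∈ U := by
    rintro x ⟨-, y, -, hyx⟩
    exact h.edge_mem x y hyx.symm
  have hnb : ∀ u ∈ E, ∀ v, G.Adj u v → v ∈ E ∨ v = l ∨ v = a ∨ v = t := by
    intro u hu v huv
    by_cases hv : v ∈ E
    · exact Or.inl hv
    · right
      have h1 : v ∈ Nb G E := ⟨hv, u, hu, huv⟩
      rw [hN] at h1
      exact h1
  cases Q with
  | nil => exact absurd rfl hlt
  | @cons _ ω _ hlω P =>
    rw [Walk.cons_isPath_iff] at hQ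
    have hωE : ω ∉ E := (hs ω (by simp)).1
    have hωa : ω ≠ a := (hs ω (by simp)).2
    have hωl : ω ≠ l := hlω.ne.symm
    have hwP : wt (fun _ => 1) P = κ l + κ t := by
      rw [wt_cons] at hw
      revert hw
      generalize wt (fun _ => 1) P = w
      generalize κ l = x
      generalize κ t = y
      revert w x y; decide
    have hωt : ω ≠ t := by
      rintro rfl
      have h1 : P = Walk.nil := (Walk.isPath_iff_nil.1 hQ.1).eq_nil
      rw [h1, wt_nil] at hwP
      apply hκl hlω
      revert hwP
      generalize κ l = x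
      generalize κ ω = y
      revert x y; decide
    set κω : V → ZMod 2 := Function.update κ ω (κ l + 1) with hκωd
    have k1 : ∀ x, x ≠ ω → κω x = κ x := fun x hx => Function.update_of_ne hx _ _
    have k2 : κω ω = κ l + 1 := Function.update_self _ _ _
    set Z : SimpleGraph V := zG G E l {a, t} ω with hZ
    have hZG : Z ≤ G := zG_le _ _ _ _ _
    have hZE : ∀ u v, u ∈ E → (Z.Adj u v ↔ G.Adj u v) :=
      fun u v hu => ⟨fun h1 => h1.1, fun h1 => ⟨h1, Or.inl hu⟩⟩
    have hZl : ∀ v, Z.Adj l v ↔ G.Adj l v ∧ (v ∈ E ∨ v = a ∨ v = t ∨ v = ω) := by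
      intro v
      rw [hZ, zG_adj]
      constructor
      · rintro ⟨h1, h2 | h2 | ⟨-, (h2 | h2) | h2⟩ | ⟨h2, -⟩⟩
        · exact absurd h2 hlE
        · exact ⟨h1, Or.inl h2⟩
        · exact ⟨h1, Or.inr (Or.inl h2)⟩
        · exact ⟨h1, Or.inr (Or.inr (Or.inl h2))⟩
        · exact ⟨h1, Or.inr (Or.inr (Or.inr h2))⟩
        · exact absurd h2 h1.ne.symm
      · rintro ⟨h1, h2 | h2 | h2 | h2⟩
        · exact ⟨h1, Or.inr (Or.inl h2)⟩
        · exact ⟨h1, Or.inr (Or.inr (Or.inl ⟨rfl, Or.inl (Or.inl h2)⟩))⟩
        · exact ⟨h1, Or.inr (Or.inr (Or.inl ⟨rfl, Or.inl (Or.inr h2)⟩))⟩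
        · exact ⟨h1, Or.inr (Or.inr (Or.inl ⟨rfl, Or.inr h2⟩))⟩
    have hNbE : ∀ Y ⊆ E, Nb Z Y = Nb G Y := by
      intro Y hY
      apply Nb_congr
      intro u v hu _
      exact hZE u v (hY hu)
    have hωnb : ∀ u ∈ E, ∀ v, G.Adj u v → v ≠ ω := by
      rintro u hu v huv rfl
      rcases hnb u hu _ huv with h1 | h1 | h1 | h1
      · exact hωE h1
      · exact hωl h1
      · exact hωa h1
      · exact hωt h1
    have hNW : Nb Z (insert l E) = {ω, t, a} := by
      ext v
      constructor
      · rintro ⟨hv, u, hu, huv⟩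
        have hv1 : v ≠ l := fun hh => hv (Or.inl hh)
        have hv2 : v ∉ E := fun hh => hv (Or.inr hh)
        rcases hu with rfl | hu
        · rcases ((hZl v).1 huv).2 with h1 | h1 | h1 | h1
          · exact absurd h1 hv2
          · exact Or.inr (Or.inr h1)
          · exact Or.inr (Or.inl h1)
          · exact Or.inl h1
        · rcases hnb u hu v huv.1 with h1 | h1 | h1 | h1
          · exact absurd h1 hv2
          · exact absurd h1 hv1
          · exact Or.inr (Or.inr h1)
          · exact Or.inr (Or.inl h1)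
      · rintro (rfl | rfl | rfl)
        · refine ⟨?_, l, Or.inl rfl, (hZl _).2 ⟨hlω, Or.inr (Or.inr (Or.inr rfl))⟩⟩
          rintro (h1 | h1)
          · exact hωl h1
          · exact hωE h1
        · obtain ⟨-, u, hu, hut⟩ := htN
          refine ⟨?_, u, Or.inr hu, (hZE u _ hu).2 hut⟩
          rintro (h1 | h1)
          · exact hlt h1.symm
          · exact htE h1
        · obtain ⟨-, u, hu, hut⟩ := haN
          refine ⟨?_, u, Or.inr hu, (hZE u _ hu).2 hut⟩
          rintro (h1 | h1)
          · exact hla h1.symm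
          · exact haE h1
    -- subsets of `E`
    have hrest : ∀ Y ⊆ E, (Nb G Y).ncard ≤ 2 → 2 ≤ (U \ (Y ∪ Nb G Y)).ncard := by
      intro Y hY h2
      have h4 : (insert ω (Nb G E)).ncard = 4 := by
        rw [hN, Set.ncard_insert_of_notMem, Set.ncard_insert_of_notMem, Set.ncard_pair hat]
        · simp only [Set.mem_insert_iff, Set.mem_singleton_iff, not_or]
          exact ⟨hla, hlt⟩
        · simp only [Set.mem_insert_iff, Set.mem_singleton_iff, not_or]
          exact ⟨hωl, hωa, hωt⟩
      have hsub : insert ω (Nb G E) \ Nb G Y ⊆ U \ (Y ∪ Nb G Y) := by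
        rintro x ⟨h1, h3⟩
        rcases h1 with rfl | h1
        · exact ⟨h.edge_mem _ _ hlω.symm, fun h5 => h5.elim (fun h6 => hωE (hY h6)) h3⟩
        · exact ⟨hNU x h1, fun h5 => h5.elim (fun h6 => h1.1 (hY h6)) h3⟩
      have h5 := Set.ncard_le_ncard hsub (Set.toFinite _)
      have h6 := Set.le_ncard_sdiff (Nb G Y) (insert ω (Nb G E)) (Set.toFinite _)
      omega
    have hthreeE : ∀ Y ⊆ E, Y.Nonempty → 3 ≤ (Nb G Y).ncard := by
      intro Y hY hne
      by_contra hlt3
      by_cases h2 : 2 ≤ Y.ncard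
      · have h3 := h.conn Y (hY.trans hE) h2 (by omega)
        have h4 := hrest Y hY (by omega)
        omega
      · have hpos : 0 < Y.ncard := (Set.ncard_pos (Set.toFinite _)).2 hne
        obtain ⟨s, rfl⟩ := Set.ncard_eq_one.1 (by omega : Y.ncard = 1)
        rw [Nb_singleton] at hlt3
        have h7 := h.deg3 s (hE (hY rfl))
        omega
    -- sets containing `l`
    have hlset : ∀ Y1 ⊆ E, ω ∈ Nb Z (insert l Y1) ∧
        Nb G Y1 ⊆ insert l (Nb Z (insert l Y1) \ {ω}) := by
      intro Y1 hs1
      constructor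
      · refine ⟨?_, l, Or.inl rfl, (hZl _).2 ⟨hlω, Or.inr (Or.inr (Or.inr rfl))⟩⟩
        rintro (h1 | h1)
        · exact hωl h1
        · exact hωE (hs1 h1)
      · rintro v ⟨hv, u, hu, huv⟩
        by_cases hvl : v = l
        · exact Or.inl hvl
        · right
          refine ⟨⟨?_, u, Or.inr hu, (hZE u v (hs1 hu)).2 huv⟩, hωnb u (hs1 hu) v huv⟩
          rintro (h1 | h1)
          · exact hvl h1
          · exact hv h1
    have hfr := apex_frame_loc (G := Z) (c := fun _ => 1) (κ := κω) (W := insert l E) (z := a)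
      (a := ω) (b := t) ?_ ?_ hNW hωt hωa hat.symm ?_ ?_ ?_
    · have hcap := cap_of_frame hωt hωa hat.symm (c := fun _ => 1) (κ := κω) (W := insert l E)
        (by rintro (h1 | h1)
            · exact hωl h1
            · exact hωE h1)
        (by rintro (h1 | h1)
            · exact hlt h1.symm
            · exact htE h1)
        (by rintro (h1 | h1)
            · exact hla h1.symm
            · exact haE h1) hfr
      refine tok_of_cap_le hZG hNW hωt hcap P hQ.1 ?_ ?_
      · rw [hwP, k2, k1 t hωt.symm]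
        generalize κ l = x
        generalize κ t = y
        revert x y; decide
      · intro x hx
        have h1 := hs x (by rw [Walk.support_cons]; exact List.mem_cons_of_mem _ hx)
        refine ⟨?_, h1.2⟩
        rintro (h2 | h2)
        · exact hQ.2 (h2 ▸ hx)
        · exact h1.1 h2
    · rintro y (rfl | hy)
      · obtain ⟨-, u, hu, hul⟩ := hlN
        refine two_le_ncard_of (a := ω) (b := u)
          ((hZl _).2 ⟨hlω, Or.inr (Or.inr (Or.inr rfl))⟩)
          ((hZl _).2 ⟨hul.symm, Or.inl hu⟩) ?_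
        rintro rfl
        exact hωE hu
      · have h1 : Z.neighborSet y = G.neighborSet y := by
          ext v
          exact hZE y v hy
        rw [h1]
        have := h.deg3 y (hE hy)
        omega
    · intro Y hY h2
      by_cases hl : l ∈ Y
      · obtain ⟨Y1, hY1, hlY1, rfl⟩ := split_l hl hY
        have hne : Y1.Nonempty := by
          rw [← Set.ncard_pos (Set.toFinite _)]
          rw [Set.ncard_insert_of_notMem hlY1 (Set.toFinite _)] at h2
          omega
        obtain ⟨q1, q2⟩ := hlset Y1 hY1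
        have h3 := hthreeE Y1 hY1 hne
        have h4 := Set.ncard_le_ncard q2 (Set.toFinite _)
        have h5 := Set.ncard_insert_le l (Nb Z (insert l Y1) \ {ω})
        have h6 := Set.ncard_sdiff_singleton_of_mem q1
        omega
      · have hs1 : Y ⊆ E := by
          intro x hx
          rcases hY hx with h1 | h1
          · exact absurd (h1 ▸ hx) hl
          · exact h1
        rw [hNbE Y hs1]
        apply hthreeE Y hs1
        rw [← Set.ncard_pos (Set.toFinite _)]; omega
    · -- the colouring
      rintro u v hu hva huv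
      show (1 : ZMod 2) = κω u + κω v
      have huv' := huv.1
      rcases hu with rfl | hu
      · rw [k1 u hωl.symm]
        rcases ((hZl v).1 huv).2 with h1 | h1 | h1 | h1
        · rw [k1 v (fun hh => hωE (hh ▸ h1))]
          exact (add_eq_one_iff.2 (hκ v u h1 hla huv'.symm).symm).symm
        · exact absurd h1 hva
        · rw [h1, k1 t hωt.symm]
          exact (add_eq_one_iff.2 (hκl (h1 ▸ huv'))).symm
        · rw [h1, k2, ← add_assoc, CharTwo.add_self_eq_zero, zero_add]
      · rw [k1 u (fun hh => hωE (hh ▸ hu)), k1 v (hωnb u hu v huv')]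
        exact (add_eq_one_iff.2 (hκ u v hu hva huv')).symm
    · intro Y hY h2 h3 κ' hb
      rw [odG_one]
      by_cases hl : l ∈ Y
      · obtain ⟨Y1, hY1, hlY1, rfl⟩ := split_l hl hY
        have hne : Y1.Nonempty := by
          rw [← Set.ncard_pos (Set.toFinite _)]
          rw [Set.ncard_insert_of_notMem hlY1 (Set.toFinite _)] at h2
          omega
        obtain ⟨q1, q2⟩ := hlset Y1 hY1
        set N1 : Set V := Nb Z (insert l Y1) \ {ω} with hN1
        have hNe : Nb Z (insert l Y1) = insert ω N1 := by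
          rw [hN1, Set.insert_sdiff_singleton]
          exact (Set.insert_eq_of_mem q1).symm
        have hN1c : N1.ncard ≤ 2 := by
          rw [hN1, Set.ncard_sdiff_singleton_of_mem q1]; omega
        have hNc : (Nb G Y1).ncard ≤ 3 := by
          have h1 := Set.ncard_le_ncard q2 (Set.toFinite _)
          have h5 := Set.ncard_insert_le l N1
          omega
        have hbal : Helper51.GX.Bal G κ' Y1 := by
          intro u v hu huv
          have h1 := hb u v (Or.inr hu) ((hZE u v (hY1 hu)).2 huv)
          exact add_eq_one_iff.1 h1.symm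
        have hf1 : fden G Y1 ≤ beta κ' (Nb G Y1) := by
          by_cases hc2 : 2 ≤ Y1.ncard
          · have := h.P1 Y1 (hY1.trans hE) hc2 κ' hbal
            omega
          · have hpos : 0 < Y1.ncard := (Set.ncard_pos (Set.toFinite _)).2 hne
            obtain ⟨s, rfl⟩ := Set.ncard_eq_one.1 (by omega : Y1.ncard = 1)
            have h5 := fO_singleton_le G κ' s (by
              rw [← Set.ncard_pos (Set.toFinite _)]
              have := h.deg3 s (hE (hY1 rfl))
              omega)
            have h6 : fO G κ' {s} = fden G {s} := by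
              unfold fO fden rho
              have : EAt (oddG G κ') {s} = EAt G {s} := by
                ext e
                induction e using Sym2.ind with
                | _ u v =>
                  rw [mem_EAt, mem_EAt, oddG_adj]
                  constructor
                  · rintro ⟨⟨g1, -⟩, g2⟩; exact ⟨g1, g2⟩
                  · rintro ⟨g1, g2⟩
                    refine ⟨⟨g1, ?_⟩, g2⟩
                    rcases g2 with g2 | g2
                    · exact add_eq_one_iff.2 (hbal u v g2 g1)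
                    · exact add_eq_one_iff.2 (hbal v u g2 g1.symm).symm
              rw [this]
            rw [h6] at h5
            exact h5
        have hlN1 : l ∉ N1 := fun hh => hh.1.1 (Or.inl rfl)
        have hωN1 : ω ∉ N1 := fun hh => hh.2 rfl
        have hlω' : κ' ω = κ' l + 1 := by
          have h1 : (1 : ZMod 2) = κ' l + κ' ω :=
            hb l ω (Or.inl rfl) ((hZl _).2 ⟨hlω, Or.inr (Or.inr (Or.inr rfl))⟩)
          revert h1
          generalize κ' l = x
          generalize κ' ω = y
          revert x y; decide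
        have hnum := num_l (κ := κ') (κω := κ') hlN1 hωN1 hN1c (fun _ _ => rfl) hlω'
        have hbm := beta_mono (κ := κ') q2
        rw [fden_insert Z hlY1, hNe]
        have e1 : fden Z Y1 = fden G Y1 := by
          unfold fden rho
          have : EAt Z Y1 = EAt G Y1 := by
            ext e
            induction e using Sym2.ind with
            | _ u v =>
              rw [mem_EAt, mem_EAt]
              constructor
              · rintro ⟨g1, g2⟩; exact ⟨g1.1, g2⟩
              · rintro ⟨g1, g2 | g2⟩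
                · exact ⟨(hZE u v (hY1 g2)).2 g1, Or.inl g2⟩
                · exact ⟨((hZE v u (hY1 g2)).2 g1.symm).symm, Or.inr g2⟩
          rw [this]
        have hcnt : Z.neighborSet l \ Y1 ⊆ insert ω {w | w ∈ N1 ∧ κ' l + κ' w = 1} := by
          rintro w ⟨g1, g3⟩
          by_cases hw' : w = ω
          · exact Or.inl hw'
          · right
            refine ⟨⟨⟨?_, l, Or.inl rfl, g1⟩, hw'⟩, ?_⟩
            · rintro (g4 | g4)
              · exact Z.ne_of_adj g1 g4.symm
              · exact g3 g4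
            · exact (hb l w (Or.inl rfl) g1).symm
        have hc1 := Set.ncard_le_ncard hcnt (Set.toFinite _)
        have hc2 := Set.ncard_insert_le ω {w | w ∈ N1 ∧ κ' l + κ' w = 1}
        have hc3 : ((Z.neighborSet l \ Y1).ncard : ℤ) ≤
            ({w | w ∈ N1 ∧ κ' l + κ' w = 1}.ncard : ℤ) + 1 := by exact_mod_cast hc1.trans hc2
        rw [e1]
        linarith
      · have hs1 : Y ⊆ E := by
          intro x hx
          rcases hY hx with h1 | h1
          · exact absurd (h1 ▸ hx) hl
          · exact h1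
        exfalso
        rw [hNbE Y hs1] at h3
        have := h.P1 Y (hs1.trans hE) h2 κ' (by
          intro u v hu huv
          have h1 := hb u v hu ((hZE u v (hs1 hu)).2 huv)
          exact add_eq_one_iff.1 h1.symm)
        omega
    · rw [odG_one, fden_insert Z hlE]
      have e1 : fden Z E = fden G E := by
        unfold fden rho
        have : EAt Z E = EAt G E := by
          ext e
          induction e using Sym2.ind with
          | _ u v =>
            rw [mem_EAt, mem_EAt]
            constructor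
            · rintro ⟨g1, g2⟩; exact ⟨g1.1, g2⟩
            · rintro ⟨g1, g2 | g2⟩
              · exact ⟨(hZE u v g2).2 g1, Or.inl g2⟩
              · exact ⟨((hZE v u g2).2 g1.symm).symm, Or.inr g2⟩
        rw [this]
      have e2 : rr G l a + rr G l t + 1 ≤ ((Z.neighborSet l \ E).ncard : ℤ) := by
        have hmω : ω ∈ Z.neighborSet l \ E :=
          ⟨(hZl _).2 ⟨hlω, Or.inr (Or.inr (Or.inr rfl))⟩, hωE⟩
        have hma : G.Adj l a → a ∈ Z.neighborSet l \ E := fun h1 =>
          ⟨(hZl _).2 ⟨h1, Or.inr (Or.inl rfl)⟩, haE⟩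
        have hmt : G.Adj l t → t ∈ Z.neighborSet l \ E := fun h1 =>
          ⟨(hZl _).2 ⟨h1, Or.inr (Or.inr (Or.inl rfl))⟩, htE⟩
        have c1 : 1 ≤ (Z.neighborSet l \ E).ncard :=
          (Set.ncard_pos (Set.toFinite _)).2 ⟨ω, hmω⟩
        unfold rr
        by_cases h1 : G.Adj l a <;> by_cases h2 : G.Adj l t
        · rw [if_pos h1, if_pos h2]
          have c3 : 3 ≤ (Z.neighborSet l \ E).ncard := by
            have h5 : ({ω, a, t} : Set V).ncard = 3 := by
              rw [Set.ncard_insert_of_notMem, Set.ncard_pair hat]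
              simp only [Set.mem_insert_iff, Set.mem_singleton_iff, not_or]
              exact ⟨hωa, hωt⟩
            rw [← h5]
            apply Set.ncard_le_ncard _ (Set.toFinite _)
            rintro x (rfl | rfl | rfl)
            · exact hmω
            · exact hma h1
            · exact hmt h2
          have : (3 : ℤ) ≤ ((Z.neighborSet l \ E).ncard : ℤ) := by exact_mod_cast c3
          linarith
        · rw [if_pos h1, if_neg h2]
          have c2 := two_le_ncard_of hmω (hma h1) hωa
          have : (2 : ℤ) ≤ ((Z.neighborSet l \ E).ncard : ℤ) := by exact_mod_cast c2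
          linarith
        · rw [if_neg h1, if_pos h2]
          have c2 := two_le_ncard_of hmω (hmt h2) hωt
          have : (2 : ℤ) ≤ ((Z.neighborSet l \ E).ncard : ℤ) := by exact_mod_cast c2
          linarith
        · rw [if_neg h1, if_neg h2]
          have : (1 : ℤ) ≤ ((Z.neighborSet l \ E).ncard : ℤ) := by exact_mod_cast c1
          linarith
      rw [e1]
      linarith

end Pool.Agent.Helper97.PH
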