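import Pool.Agent.Helper97.PH.P2p

/-!
# Lemma P2+ with a chosen set of edges at `l` (MP_3f61ad_co, for helper94)

As `PP.main`, but only the edges between `l` and a subset `F` of `T` belong to the balanced part;
`l` has two neighbours in `F`. There is a third exit: the path from `l` is a single edge `l t0`
with `t0 ∈ T`, `t0 ∉ F`.
-/

set_option autoImplicit false

namespace Pool.Agent.Helper97.PH

open SimpleGraph Pool.Agent.Helper57.TOK Pool.Agent.Helper57.TD Pool.Agent.Helper82.TK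
  Pool.Agent.Helper1.TD Pool.Agent.Helper1.GL Pool.Agent.Helper57.TOP

variable {V : Type*}

/-- The situation of Lemma PF. -/
structure PF (G : SimpleGraph V) (U Y : Set V) (l : V) (T F : Set V) (κ : V → ZMod 2) : Prop where
  w3 : W3 G (One V) U
  YU : Y ⊆ U
  lU : l ∈ U
  TU : T ⊆ U
  T3 : T.ncard = 3
  lY : l ∉ Y
  lT : l ∉ T
  YT : ∀ t ∈ T, t ∉ Y
  FT : F ⊆ T
  nb : ∀ u ∈ Y, ∀ v, G.Adj u v → v ∈ Y ∨ v = l ∨ v ∈ T
  bal : BalOn G (One V) Y κ
  ball : ∀ t ∈ F, G.Adj l t → κ l + κ t = 1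
  two : ∃ v1 v2, v1 ≠ v2 ∧ v1 ∈ F ∧ v2 ∈ F ∧ G.Adj l v1 ∧ G.Adj l v2
  sparse : ∀ Y' ⊆ Y, 2 ≤ Y'.ncard → (Nb G Y').ncard = 3 → 2 ≤ (U \ (Y' ∪ Nb G Y')).ncard →
    fden (odG G (One V)) Y' ≤ beta κ (Nb G Y')
  dens : beta κ T + 1 ≤ fO (lG G Y l F) κ (insert l Y)

variable {G : SimpleGraph V} {U Y T F : Set V} {l : V} {κ : V → ZMod 2}

lemma PF.lnb (h : PF G U Y l T F κ) : ∃ v, G.Adj l v ∧ (v ∈ Y ∨ v ∈ F) := by
  obtain ⟨v1, v2, -, h1, -, h2, -⟩ := h.two
  exact ⟨v1, h2, Or.inr h1⟩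

lemma PF.hnd (h : PF G U Y l T F κ) : ∀ u ∈ Y, ∀ p, G.neighborSet u ⊆ {l, p} →
    ∃ v, G.Adj l v ∧ (v ∈ Y ∨ v ∈ F) ∧ v ≠ u ∧ v ≠ p := by
  obtain ⟨v1, v2, hne, h1, h2, h3, h4⟩ := h.two
  intro u hu p _
  by_cases hp : v1 = p
  · exact ⟨v2, h4, Or.inr h2, fun hh => h.YT v2 (h.FT h2) (hh ▸ hu), fun hh => hne (hp.trans hh.symm)⟩
  · exact ⟨v1, h3, Or.inr h1, fun hh => h.YT v1 (h.FT h1) (hh ▸ hu), hp⟩

lemma PF.nbsub (h : PF G U Y l T F κ) {Y' : Set V} (hs : Y' ⊆ Y) :
    Nb G Y' ⊆ Y ∪ insert l T := by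
  rintro v ⟨-, u, hu, huv⟩
  rcases h.nb u (hs hu) v huv with h1 | h1 | h1
  · exact Or.inl h1
  · exact Or.inr (Or.inl h1)
  · exact Or.inr (Or.inr h1)

lemma PF.rest2 [Finite V] (h : PF G U Y l T F κ) {ω : V} (ho : Out U Y l T ω) {Y' : Set V}
    (hs : Y' ⊆ Y) (h3 : (Nb G Y').ncard ≤ 3) : 2 ≤ (U \ (Y' ∪ Nb G Y')).ncard := by
  have hW : (insert ω (insert l T)).ncard = 5 := by
    rw [Set.ncard_insert_of_notMem _ (Set.toFinite _),
      Set.ncard_insert_of_notMem h.lT (Set.toFinite _), h.T3]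
    rintro (h1 | h1)
    · exact ho.l h1
    · exact ho.T h1
  have hsub : insert ω (insert l T) \ Nb G Y' ⊆ U \ (Y' ∪ Nb G Y') := by
    rintro x ⟨h1, h2⟩
    rcases h1 with rfl | rfl | h1
    · exact ⟨ho.U, fun h4 => h4.elim (fun h5 => ho.Y (hs h5)) h2⟩
    · exact ⟨h.lU, fun h4 => h4.elim (fun h5 => h.lY (hs h5)) h2⟩
    · exact ⟨h.TU h1, fun h4 => h4.elim (fun h5 => h.YT x h1 (hs h5)) h2⟩
  have h4 := Set.ncard_le_ncard hsub (Set.toFinite _)
  have h5 := Set.le_ncard_sdiff (Nb G Y') (insert ω (insert l T)) (Set.toFinite _)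
  omega

lemma PF.fY [Finite V] (h : PF G U Y l T F κ) {ω : V} (ho : Out U Y l T ω) {Y' : Set V}
    (hs : Y' ⊆ Y) (hne : Y'.Nonempty) (h3 : (Nb G Y').ncard ≤ 3) :
    fO G κ Y' ≤ beta κ (Nb G Y') := by
  have hrest := h.rest2 ho hs h3
  by_cases h2 : 2 ≤ Y'.ncard
  · by_cases h4 : (Nb G Y').ncard = 3
    · rw [fO_of_balOn (c := One V) (fun u v hu huv => h.bal u v (hs hu) huv)]
      exact h.sparse Y' hs h2 h4 hrest
    · have := h.w3.conn Y' (hs.trans h.YU) h2 (by omega)
      omega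
  · have hpos : 0 < Y'.ncard := (Set.ncard_pos (Set.toFinite _)).2 hne
    obtain ⟨s, rfl⟩ := Set.ncard_eq_one.1 (by omega : Y'.ncard = 1)
    apply fO_singleton_le
    have h7 := h.w3.deg2 s (h.YU (hs rfl))
    exact (Set.ncard_pos (Set.toFinite _)).1 (by omega)

/-- The society. -/
lemma PF.soc [Finite V] (h : PF G U Y l T F κ) {ω : V} (ho : Out U Y l T ω) (hlω : G.Adj l ω)
    (hnd : ∀ u ∈ Y, ∀ p, G.neighborSet u ⊆ {l, p} →
      ∃ v, G.Adj l v ∧ (v ∈ Y ∨ v ∈ F) ∧ v ≠ u ∧ v ≠ p)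
    {κω : V → ZMod 2} (hκ : ∀ x, x ≠ ω → κω x = κ x) (hκω : κω ω = κ l + 1) :
    Soc false (zG G Y l F ω) κω (insert l Y) (insert ω T) := by
  have hlY := h.lY
  have hYadj : ∀ u v, u ∈ Y → ((zG G Y l F ω).Adj u v ↔ G.Adj u v) := by
    intro u v hu
    exact ⟨fun h1 => h1.1, fun h1 => ⟨h1, Or.inl hu⟩⟩
  have hNb : ∀ Y' ⊆ Y, Nb (zG G Y l F ω) Y' = Nb G Y' := by
    intro Y' hs
    apply Nb_congr
    intro u v hu _
    exact hYadj u v (hs hu)
  have hYω : ∀ u ∈ Y, ∀ v, G.Adj u v → v ≠ ω := by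
    intro u hu v huv hv
    subst hv
    rcases h.nb u hu v huv with h1 | h1 | h1
    · exact ho.Y h1
    · exact ho.l h1
    · exact ho.T h1
  have hfO : ∀ Y' ⊆ Y, fO (zG G Y l F ω) κω Y' = fO G κ Y' := by
    intro Y' hs
    apply fO_congr
    intro u v hu
    rw [hYadj u v (hs hu)]
    constructor
    · rintro ⟨h1, h2⟩
      refine ⟨h1, ?_⟩
      rwa [hκ u (fun hh => ho.Y (hh ▸ hs hu)), hκ v (hYω u (hs hu) v h1)] at h2
    · rintro ⟨h1, h2⟩
      refine ⟨h1, ?_⟩
      rwa [hκ u (fun hh => ho.Y (hh ▸ hs hu)), hκ v (hYω u (hs hu) v h1)]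
  have hκl : κω l = κ l := hκ l (fun hh => ho.l hh.symm)
  -- sets containing `l`
  have hlset : ∀ Y1 ⊆ Y, ω ∈ Nb (zG G Y l F ω) (insert l Y1) ∧
      Nb G Y1 ⊆ insert l (Nb (zG G Y l F ω) (insert l Y1) \ {ω}) := by
    intro Y1 hs
    constructor
    · refine ⟨?_, l, Or.inl rfl, hlω, Or.inr (Or.inr (Or.inl ⟨rfl, Or.inr rfl⟩))⟩
      rintro (h1 | h1)
      · exact ho.l h1
      · exact ho.Y (hs h1)
    · rintro v ⟨hv, u, hu, huv⟩
      by_cases hvl : v = l
      · exact Or.inl hvl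
      · right
        refine ⟨⟨?_, u, Or.inr hu, huv, Or.inl (hs hu)⟩, hYω u (hs hu) v huv⟩
        rintro (h1 | h1)
        · exact hvl h1
        · exact hv h1
  refine
    { T4 := ?_, disj := ?_, edge_mem := ?_, edge_S := ?_, M1 := ?_, TT := ?_, M2 := ?_, C1 := ?_,
      C2 := ?_ }
  · rw [Set.ncard_insert_of_notMem ho.T (Set.toFinite _), h.T3]
  · rw [Set.disjoint_left]
    rintro x (h1 | h1) (h2 | h2)
    · exact ho.l (h2.symm.trans h1)
    · exact h.lT (h1 ▸ h2)
    · exact ho.Y (h2 ▸ h1)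
    · exact h.YT x h2 h1
  · rintro u v ⟨h1, h2 | h2 | ⟨h2, -⟩ | ⟨-, h2 | h2⟩⟩
    · exact Or.inl (Or.inr h2)
    · rcases h.nb v h2 u h1.symm with h3 | h3 | h3
      · exact Or.inl (Or.inr h3)
      · exact Or.inl (Or.inl h3)
      · exact Or.inr (Or.inr h3)
    · exact Or.inl (Or.inl h2)
    · exact Or.inr (Or.inr (h.FT h2))
    · exact Or.inr (Or.inl h2)
  · rintro u v ⟨h1, h2 | h2 | ⟨h2, -⟩ | ⟨h2, -⟩⟩
    · exact Or.inl (Or.inr h2)
    · exact Or.inr (Or.inr h2)
    · exact Or.inl (Or.inl h2)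
    · exact Or.inr (Or.inl h2)
  · -- density
    show beta κω (insert ω T) + 1 ≤ fO (zG G Y l F ω) κω (insert l Y)
    have h1 : beta κω (insert ω T) ≤ beta κ T + 1 := by
      have h2 := beta_insert_le (κ := κω) (N := T) (x := ω)
      have h3 : beta κω T = beta κ T :=
        beta_congr (fun x hx => hκ x (fun hh => ho.T (hh ▸ hx)))
      linarith
    have h2 : fO (lG G Y l F) κ (insert l Y) + 1 ≤ fO (zG G Y l F ω) κω (insert l Y) := by
      unfold fO fden rho
      have h3 : insert s(l, ω) (EAt (oddG (lG G Y l F) κ) (insert l Y)) ⊆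
          EAt (oddG (zG G Y l F ω) κω) (insert l Y) := by
        intro e
        induction e using Sym2.ind with
        | _ u v =>
          rintro (he | he)
          · rw [he, mem_EAt]
            refine ⟨⟨⟨hlω, Or.inr (Or.inr (Or.inl ⟨rfl, Or.inr rfl⟩))⟩, ?_⟩, Or.inl (Or.inl rfl)⟩
            rw [hκl, hκω, ← add_assoc, CharTwo.add_self_eq_zero, zero_add]
          · rw [mem_EAt] at he ⊢
            obtain ⟨⟨⟨g1, g2⟩, g3⟩, g4⟩ := he
            have hne : u ≠ ω ∧ v ≠ ω := by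
              rcases g2 with g2 | g2 | g2 | g2
              · exact ⟨fun hh => ho.Y (hh ▸ g2), hYω u g2 v g1⟩
              · exact ⟨hYω v g2 u g1.symm, fun hh => ho.Y (hh ▸ g2)⟩
              · exact ⟨fun hh => ho.l (hh ▸ g2.1), fun hh => ho.T (h.FT (hh ▸ g2.2))⟩
              · exact ⟨fun hh => ho.T (h.FT (hh ▸ g2.2)), fun hh => ho.l (hh ▸ g2.1)⟩
            refine ⟨⟨⟨g1, ?_⟩, ?_⟩, g4⟩
            · rcases g2 with g2 | g2 | g2 | g2
              · exact Or.inl g2
              · exact Or.inr (Or.inl g2)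
              · exact Or.inr (Or.inr (Or.inl ⟨g2.1, Or.inl g2.2⟩))
              · exact Or.inr (Or.inr (Or.inr ⟨g2.1, Or.inl g2.2⟩))
            · rw [hκ u hne.1, hκ v hne.2]; exact g3
      have h4 : s(l, ω) ∉ EAt (oddG (lG G Y l F) κ) (insert l Y) := by
        rw [mem_EAt]
        rintro ⟨⟨⟨-, g2⟩, -⟩, -⟩
        rcases g2 with g2 | g2 | g2 | g2
        · exact hlY g2
        · exact ho.Y g2
        · exact ho.T (h.FT g2.2)
        · exact ho.l g2.1
      have h5 := Set.ncard_le_ncard h3 (Set.toFinite _)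
      rw [Set.ncard_insert_of_notMem h4 (Set.toFinite _)] at h5
      have h6 : ((EAt (oddG (lG G Y l F) κ) (insert l Y)).ncard : ℤ) + 1 ≤
          ((EAt (oddG (zG G Y l F ω) κω) (insert l Y)).ncard : ℤ) := by exact_mod_cast h5
      linarith
    have h3 := h.dens
    linarith
  · intro hh; exact absurd hh (by decide)
  · -- sparse subsets
    intro Y' hY' hne hc
    by_cases hl : l ∈ Y'
    · obtain ⟨Y1, hY1s, hlY1, rfl⟩ := split_l hl hY'
      obtain ⟨q1, q2⟩ := hlset Y1 hY1s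
      set N1 : Set V := Nb (zG G Y l F ω) (insert l Y1) \ {ω} with hN1
      have hNe : Nb (zG G Y l F ω) (insert l Y1) = insert ω N1 := by
        rw [hN1, Set.insert_sdiff_singleton]
        exact (Set.insert_eq_of_mem q1).symm
      have hN1c : N1.ncard ≤ 2 := by
        rw [hN1, Set.ncard_sdiff_singleton_of_mem q1]; omega
      by_cases hY1e : Y1.Nonempty
      · have hNbc : (Nb G Y1).ncard ≤ 3 := by
          have h1 := Set.ncard_le_ncard q2 (Set.toFinite _)
          have h2 := Set.ncard_insert_le l N1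
          omega
        have hf := h.fY ho hY1s hY1e hNbc
        have hb := beta_mono (κ := κ) q2
        rw [fO_insert hlY1, hfO Y1 hY1s, hNe]
        have hlN : l ∉ N1 := fun hh => hh.1.1 (Or.inl rfl)
        have hωN : ω ∉ N1 := fun hh => hh.2 rfl
        have hnum := num_l (κ := κ) (κω := κω) hlN hωN hN1c
          (fun x hx => hκ x (fun hh => hωN (hh ▸ hx))) hκω
        have hcnt : {w | (zG G Y l F ω).Adj l w ∧ κω l + κω w = 1 ∧ w ∉ Y1} ⊆
            insert ω {w | w ∈ N1 ∧ κ l + κ w = 1} := by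
          rintro w ⟨g1, g2, g3⟩
          by_cases hw : w = ω
          · exact Or.inl hw
          · right
            refine ⟨⟨⟨?_, l, Or.inl rfl, g1⟩, hw⟩, ?_⟩
            · rintro (g4 | g4)
              · exact g1.1.ne g4.symm
              · exact g3 g4
            · rw [hκl, hκ w hw] at g2; exact g2
        have hc1 := Set.ncard_le_ncard hcnt (Set.toFinite _)
        have hc2 := Set.ncard_insert_le ω {w | w ∈ N1 ∧ κ l + κ w = 1}
        have hc3 : ({w | (zG G Y l F ω).Adj l w ∧ κω l + κω w = 1 ∧ w ∉ Y1}.ncard : ℤ) ≤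
            ({w | w ∈ N1 ∧ κ l + κ w = 1}.ncard : ℤ) + 1 := by exact_mod_cast hc1.trans hc2
        linarith
      · rw [Set.not_nonempty_iff_eq_empty] at hY1e
        rw [hY1e, LawfulSingleton.insert_empty_eq]
        apply fO_singleton_le
        exact ⟨ω, hlω, Or.inr (Or.inr (Or.inl ⟨rfl, Or.inr rfl⟩))⟩
    · have hs : Y' ⊆ Y := by
        intro x hx
        rcases hY' hx with h1 | h1
        · exact absurd (h1 ▸ hx) hl
        · exact h1
      rw [hNb Y' hs] at hc ⊢
      rw [hfO Y' hs]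
      have h1 := h.fY ho hs hne hc
      have h2 : beta κω (Nb G Y') = beta κ (Nb G Y') := by
        apply beta_congr
        rintro x ⟨-, u, hu, hux⟩
        exact hκ x (hYω u (hs hu) x hux)
      rw [h2]; exact h1
  · rintro s (rfl | hs)
    · obtain ⟨v, hv, hv'⟩ := h.lnb
      refine two_le_ncard_of (a := ω) (b := v) ?_ ?_ ?_
      · exact ⟨hlω, Or.inr (Or.inr (Or.inl ⟨rfl, Or.inr rfl⟩))⟩
      · refine ⟨hv, ?_⟩
        rcases hv' with h1 | h1
        · exact Or.inr (Or.inl h1)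
        · exact Or.inr (Or.inr (Or.inl ⟨rfl, Or.inl h1⟩))
      · rintro rfl
        rcases hv' with h1 | h1
        · exact ho.Y h1
        · exact ho.T (h.FT h1)
    · have h1 : (zG G Y l F ω).neighborSet s = G.neighborSet s := by
        ext v
        rw [SimpleGraph.mem_neighborSet, SimpleGraph.mem_neighborSet]
        exact hYadj s v hs
      rw [h1]
      exact h.w3.deg2 s (h.YU hs)
  · intro Y' hY' h2
    by_contra hlt
    by_cases hl : l ∈ Y'
    · obtain ⟨Y1, hY1s, hlY1, rfl⟩ := split_l hl hY'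
      have hY1c : 1 ≤ Y1.ncard := by
        rw [Set.ncard_insert_of_notMem hlY1 (Set.toFinite _)] at h2; omega
      obtain ⟨q1, q2⟩ := hlset Y1 hY1s
      set N1 : Set V := Nb (zG G Y l F ω) (insert l Y1) \ {ω} with hN1
      have hN1c : N1.ncard ≤ 1 := by
        rw [hN1, Set.ncard_sdiff_singleton_of_mem q1]; omega
      have hNbc : (Nb G Y1).ncard ≤ 2 := by
        have h1 := Set.ncard_le_ncard q2 (Set.toFinite _)
        have h2 := Set.ncard_insert_le l N1
        omega
      have hrest := h.rest2 ho hY1s (by omega)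
      by_cases h3 : 2 ≤ Y1.ncard
      · have := h.w3.conn Y1 (hY1s.trans h.YU) h3 hNbc
        omega
      · obtain ⟨u, hu⟩ := Set.ncard_eq_one.1 (by omega : Y1.ncard = 1)
        rw [hu, Nb_singleton] at q2
        have huY : u ∈ Y := hY1s (by rw [hu]; rfl)
        obtain ⟨p, hp⟩ : ∃ p, N1 ⊆ {p} := by
          by_cases hN : N1.Nonempty
          · obtain ⟨p, hp⟩ := hN
            exact ⟨p, fun x hx => eq_of_ncard_le_one hN1c hx hp⟩
          · rw [Set.not_nonempty_iff_eq_empty] at hN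
            exact ⟨l, by rw [hN]; exact Set.empty_subset _⟩
        obtain ⟨v, hv1, hv2, hv3, hv4⟩ := hnd u huY p (fun x hx => by
          rcases q2 hx with h4 | h4
          · exact Or.inl h4
          · exact Or.inr (hp h4))
        apply hv4
        apply hp
        refine ⟨⟨?_, l, Or.inl rfl, hv1, ?_⟩, ?_⟩
        · rintro (h4 | h4)
          · exact hv1.ne h4.symm
          · rw [hu] at h4; exact hv3 h4
        · rcases hv2 with h4 | h4
          · exact Or.inr (Or.inl h4)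
          · exact Or.inr (Or.inr (Or.inl ⟨rfl, Or.inl h4⟩))
        · rintro rfl
          rcases hv2 with h4 | h4
          · exact ho.Y h4
          · exact ho.T (h.FT h4)
    · have hs : Y' ⊆ Y := by
        intro x hx
        rcases hY' hx with h1 | h1
        · exact absurd (h1 ▸ hx) hl
        · exact h1
      rw [hNb Y' hs] at hlt
      have hrest := h.rest2 ho hs (by omega)
      have := h.w3.conn Y' (hs.trans h.YU) h2 (by omega)
      omega

/-- Two disjoint paths outside give a TOK4. -/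
lemma PF.tok_of_two [Finite V] (h : PF G U Y l T F κ)
    (hnd : ∀ u ∈ Y, ∀ p, G.neighborSet u ⊆ {l, p} →
      ∃ v, G.Adj l v ∧ (v ∈ Y ∨ v ∈ F) ∧ v ≠ u ∧ v ≠ p)
    (hT : Two (mG G Y l F) (One V) κ (insert l T) (insert l T)ᶜ) : HasTOK4s G (One V) ∨
      ∃ t0 b2 b3, T = {t0, b2, b3} ∧ t0 ∉ F ∧ G.Adj l t0 ∧ κ l = κ t0 ∧ ∃ Q : G.Walk b2 b3,
        Q.IsPath ∧ wt (One V) Q = κ b2 + κ b3 + 1 ∧ ∀ x ∈ Q.support, x ∉ Y ∧ x ≠ l ∧ x ≠ t0 := by
  classical
  obtain ⟨b, a', b', hA, P, Q, hP, hQ, hPQ, -, -, hPw, hQw⟩ := hT.first (v := l) (Or.inl rfl)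
  have h4 : (insert l T).ncard = 4 := by
    rw [Set.ncard_insert_of_notMem h.lT (Set.toFinite _), h.T3]
  obtain ⟨n1, n2, n3, n4, n5, n6⟩ := quad_ne (hA ▸ h4)
  have hT3 : T = {b, a', b'} := by
    have e1 : T = insert l T \ {l} := by
      rw [Set.insert_sdiff_of_mem _ (Set.mem_singleton l)]
      exact (Set.sdiff_singleton_eq_self h.lT).symm
    rw [e1, hA]
    ext x
    simp only [Set.mem_sdiff, Set.mem_insert_iff, Set.mem_singleton_iff]
    constructor
    · rintro ⟨h1 | h1, h2⟩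
      · exact absurd h1 h2
      · exact h1
    · rintro (h1 | h1 | h1)
      · exact ⟨Or.inr (Or.inl h1), fun hh => n1 (hh.symm.trans h1)⟩
      · exact ⟨Or.inr (Or.inr (Or.inl h1)), fun hh => n2 (hh.symm.trans h1)⟩
      · exact ⟨Or.inr (Or.inr (Or.inr h1)), fun hh => n3 (hh.symm.trans h1)⟩
  have mb : b ∈ T := by rw [hT3]; exact Or.inl rfl
  have ma' : a' ∈ T := by rw [hT3]; exact Or.inr (Or.inl rfl)
  have mb' : b' ∈ T := by rw [hT3]; exact Or.inr (Or.inr rfl)
  cases P with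
  | nil => exact absurd rfl n1
  | @cons _ ω _ hlω P' =>
    rw [Walk.cons_isPath_iff] at hP
    have hle := mG_le G Y l F
    have hmemY : ∀ {u v : V} (p : (mG G Y l F).Walk u v), u ∉ Y → ∀ x ∈ p.support, x ∉ Y := by
      intro u v p hu x hx
      have := notMem_of_mem_support_delG (p.mapLe (mG_le_delG G Y l F)) hu x (by
        rw [Walk.support_mapLe_eq_support]; exact hx)
      exact this
    by_cases hωT : ω ∈ T
    · right
      have hωb : ω = b := by
        rw [hT3] at hωT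
        rcases hωT with h1 | h1 | h1
        · exact h1
        · exact absurd (h1 ▸ Q.start_mem_support) (hPQ ω (by simp))
        · exact absurd (h1 ▸ Q.end_mem_support) (hPQ ω (by simp))
      subst hωb
      have h1 : P' = Walk.nil := (Walk.isPath_iff_nil.1 hP.1).eq_nil
      rw [h1, wt_cons, wt_nil] at hPw
      refine ⟨ω, a', b', hT3, fun hh => hlω.2.2.2.1 ⟨rfl, hh⟩, hlω.1, ?_, Q.mapLe hle,
        (Walk.isPath_mapLe hle).2 hQ, by rw [wt_mapLe, hQw], ?_⟩
      · have e1 : (Pool.Agent.Helper57.TOP.One V) s(l, ω) = 1 := rfl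
        rw [e1] at hPw
        revert hPw
        generalize κ l = x
        generalize κ ω = y
        revert x y; decide
      · intro x hx
        rw [Walk.support_mapLe_eq_support] at hx
        refine ⟨hmemY Q (h.YT a' ma') x hx, ?_, ?_⟩
        · rintro rfl
          exact hPQ x (by simp) hx
        · rintro rfl
          exact hPQ x (by simp) hx
    left
    have ho : Out U Y l T ω :=
      ⟨h.w3.edge_mem _ _ hlω.1.symm, hlω.2.2.1, hlω.1.ne.symm, hωT⟩
    set κω : V → ZMod 2 := Function.update κ ω (κ l + 1) with hκω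
    have k1 : ∀ x, x ≠ ω → κω x = κ x := fun x hx => Function.update_of_ne hx _ _
    have k2 : κω ω = κ l + 1 := Function.update_self _ _ _
    have hF := theoremD _ _ _ _ (h.soc ho hlω.1 hnd k1 k2)
    have hFr := hF ω (Or.inl rfl) b (Or.inr mb) a' (Or.inr ma') b' (Or.inr mb')
      (fun hh => ho.T (hh ▸ mb)) (fun hh => ho.T (hh ▸ ma')) (fun hh => ho.T (hh ▸ mb'))
      n4 n5 n6
    have hno : ∀ x ∈ insert ω T, ∀ y ∈ insert ω T, ¬ (zG G Y l F ω).Adj x y := by
      intro x hx y hy hxy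
      have g1 : ∀ z ∈ insert ω T, z ∉ Y ∧ z ≠ l := by
        rintro z (rfl | hz)
        · exact ⟨ho.Y, ho.l⟩
        · exact ⟨h.YT z hz, fun hh => h.lT (hh ▸ hz)⟩
      rcases hxy.2 with h1 | h1 | h1 | h1
      · exact (g1 x hx).1 h1
      · exact (g1 y hy).1 h1
      · exact (g1 x hx).2 h1.1
      · exact (g1 y hy).2 h1.1
    have hlab : ∀ x y, (zG G Y l F ω).Adj x y → (Pool.Agent.Helper57.TOP.One V) s(x, y) = κω x + κω y := by
      have main : ∀ x y, G.Adj x y → (x ∈ Y ∨ (x = l ∧ (y ∈ F ∨ y = ω))) →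
          (Pool.Agent.Helper57.TOP.One V) s(x, y) = κω x + κω y := by
        rintro x y hxy (h1 | ⟨h1, h2 | h2⟩)
        · have e1 : x ≠ ω := fun hh => ho.Y (hh ▸ h1)
          have e2 : y ≠ ω := by
            rintro rfl
            rcases h.nb x h1 _ hxy with h3 | h3 | h3
            · exact ho.Y h3
            · exact ho.l h3
            · exact ho.T h3
          rw [k1 x e1, k1 y e2]
          exact h.bal x y h1 hxy
        · subst h1
          rw [k1 x (fun hh => ho.l hh.symm), k1 y (fun hh => ho.T (h.FT (hh ▸ h2)))]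
          exact (h.ball y h2 hxy).symm
        · subst h1 h2
          rw [k1 x (fun hh => ho.l hh.symm), k2, ← add_assoc, CharTwo.add_self_eq_zero, zero_add]
      rintro x y ⟨h1, h2 | h2 | h2 | h2⟩
      · exact main x y h1 (Or.inl h2)
      · rw [Sym2.eq_swap, add_comm]; exact main y x h1.symm (Or.inl h2)
      · exact main x y h1 (Or.inr h2)
      · rw [Sym2.eq_swap, add_comm]; exact main y x h1.symm (Or.inr h2)
    have hsupp : supp (zG G Y l F ω) ⊆ insert l Y ∪ insert ω T := by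
      rintro x ⟨y, h1, h2 | h2 | h2 | h2⟩
      · exact Or.inl (Or.inr h2)
      · rcases h.nb y h2 x h1.symm with h3 | h3 | h3
        · exact Or.inl (Or.inr h3)
        · exact Or.inl (Or.inl h3)
        · exact Or.inr (Or.inr h3)
      · exact Or.inl (Or.inl h2.1)
      · rcases h2.2 with h3 | h3
        · exact Or.inr (Or.inr (h.FT h3))
        · exact Or.inr (Or.inl h3)
    have hPw' : wt (One V) P' = κω ω + κω b + 1 := by
      rw [wt_cons] at hPw
      rw [k2, k1 b (fun hh => ho.T (hh ▸ mb))]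
      have e1 : (Pool.Agent.Helper57.TOP.One V) s(l, ω) = 1 := rfl
      rw [e1] at hPw
      revert hPw
      generalize wt (One V) P' = w
      generalize κ l = x
      generalize κ b = y
      revert w x y; decide
    refine tok_of_frame (J := zG G Y l F ω) (κ := κω) (F := insert l Y) (Q := insert ω T)
      (zG_le G Y l F ω) hlab
      ⟨zG G Y l F ω, le_rfl, hsupp, hno ω (Or.inl rfl) b (Or.inr mb),
        hno a' (Or.inr ma') b' (Or.inr mb'), hFr⟩ (Or.inr (Or.inl rfl)) (Or.inr (Or.inr mb))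
      (Or.inr (Or.inr ma')) (Or.inr (Or.inr mb')) (P'.mapLe hle) (Q.mapLe hle)
      ((Walk.isPath_mapLe hle).2 hP.1) ((Walk.isPath_mapLe hle).2 hQ) (by rw [wt_mapLe, hPw'])
      (by rw [wt_mapLe, hQw, k1 a' (fun hh => ho.T (hh ▸ ma')),
        k1 b' (fun hh => ho.T (hh ▸ mb'))]) ?_ ?_ ?_
    · intro x hx
      rw [Walk.support_mapLe_eq_support] at hx ⊢
      exact hPQ x (by rw [Walk.support_cons]; exact List.mem_cons_of_mem _ hx)
    · intro x hx hxF
      rw [Walk.support_mapLe_eq_support] at hx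
      have h1 := hmemY P' ho.Y x hx
      have h2 : x ∉ Q.support := hPQ x (by
        rw [Walk.support_cons]; exact List.mem_cons_of_mem _ hx)
      rcases hxF with (h3 | h3) | (h3 | h3)
      · exact absurd (h3 ▸ hx) hP.2
      · exact absurd h3 h1
      · exact Or.inl h3
      · rw [hT3] at h3
        rcases h3 with h3 | h3 | h3
        · exact Or.inr h3
        · exact absurd (h3 ▸ Q.start_mem_support) h2
        · exact absurd (h3 ▸ Q.end_mem_support) h2
    · intro x hx hxF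
      rw [Walk.support_mapLe_eq_support] at hx
      have h1 := hmemY Q (h.YT a' ma') x hx
      have h2 : x ∉ (Walk.cons hlω P').support := fun hh => hPQ x hh hx
      rw [Walk.support_cons, List.mem_cons, not_or] at h2
      rcases hxF with (h3 | h3) | (h3 | h3)
      · exact absurd h3 h2.1
      · exact absurd h3 h1
      · exact absurd (h3 ▸ P'.start_mem_support) h2.2
      · rw [hT3] at h3
        rcases h3 with h3 | h3 | h3
        · exact absurd (h3 ▸ P'.end_mem_support) h2.2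
        · exact Or.inl h3
        · exact Or.inr h3

lemma PF.ncard4 [Finite V] (h : PF G U Y l T F κ) : (insert l T).ncard = 4 := by
  rw [Set.ncard_insert_of_notMem h.lT (Set.toFinite _), h.T3]

lemma PF.Y_nonempty [Finite V] (h : PF G U Y l T F κ) : Y.Nonempty := by
  by_contra hY
  rw [Set.not_nonempty_iff_eq_empty] at hY
  have h1 := h.dens
  rw [hY, LawfulSingleton.insert_empty_eq] at h1
  have hs : Nb (lG G (∅ : Set V) l F) {l} ⊆ T := by
    rintro v ⟨-, u, hu, -, h2 | h2 | h2 | h2⟩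
    · exact h2.elim
    · exact h2.elim
    · exact h.FT h2.2
    · rw [Set.mem_singleton_iff] at hu
      exact absurd (h.FT (hu ▸ h2.2)) h.lT
  have h2 : fO (lG G (∅ : Set V) l F) κ {l} ≤ beta κ (Nb (lG G (∅ : Set V) l F) {l}) := by
    apply fO_singleton_le
    obtain ⟨v, hv, hv'⟩ := h.lnb
    refine ⟨v, hv, ?_⟩
    rcases hv' with h3 | h3
    · rw [hY] at h3; exact h3.elim
    · exact Or.inr (Or.inr (Or.inl ⟨rfl, h3⟩))
  have h3 := beta_mono (κ := κ) hs
  linarith

/-- Every obstruction gives a balanced set with at most three neighbours. -/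
lemma PF.of_obs [Finite V] (h : PF G U Y l T F κ) {X A1 B : Set V} {ρ : V → ZMod 2}
    (hO : Obs (mG G Y l F) (One V) κ (insert l T) X A1 B ρ) :
    ∃ Y' κ', Y ⊆ Y' ∧ (∃ t ∈ insert l T, t ∈ Y') ∧ Y' ⊆ U ∧ 2 ≤ Y'.ncard ∧
      BalOn G (One V) Y' κ' ∧ (Nb G Y').ncard ≤ 3 := by
  classical
  have h4 := h.ncard4
  obtain ⟨n, hn, hn'⟩ := exists_enum h4
  have hnT : ∀ i, n i ∈ insert l T := fun i => hn' ▸ ⟨i, rfl⟩
  have hTU : insert l T ⊆ U := by
    rintro x (rfl | hx)
    · exact h.lU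
    · exact h.TU hx
  have hTY : ∀ x ∈ insert l T, x ∉ Y := by
    rintro x (rfl | hx)
    · exact h.lY
    · exact h.YT x hx
  have hnb : ∀ u ∈ Y, ∀ v, G.Adj u v → v ∈ Y ∨ v ∈ insert l T := by
    intro u hu v huv
    rcases h.nb u hu v huv with h1 | h1 | h1
    · exact Or.inl h1
    · exact Or.inr (Or.inl h1)
    · exact Or.inr (Or.inr h1)
  set H := mG G Y l F with hH
  have hρ : ∀ x ∈ insert l T, x ∈ A1 → ρ x = κ x := fun x hx hx' => hO.pot x hx hx'
  -- an edge outside Y is an edge of H or joins two terminals consistently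
  have hdich : ∀ x y, x ∉ Y → y ∉ Y → G.Adj x y →
      H.Adj x y ∨ (x ∈ insert l T ∧ y ∈ insert l T ∧ κ x + κ y = 1) := by
    intro x y hx hy hxy
    by_cases h1 : x = l ∧ y ∈ F
    · right
      exact ⟨Or.inl h1.1, Or.inr (h.FT h1.2), by rw [h1.1]; exact h.ball y h1.2 (h1.1 ▸ hxy)⟩
    by_cases h2 : y = l ∧ x ∈ F
    · right
      refine ⟨Or.inr (h.FT h2.2), Or.inl h2.1, ?_⟩
      rw [h2.1, add_comm]; exact h.ball x h2.2 (h2.1 ▸ hxy.symm)
    · exact Or.inl ⟨hxy, hx, hy, h1, h2⟩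
  by_cases hX : X.Nonempty
  · exfalso
    obtain ⟨x0, hx0⟩ := hX
    have hB : B = ∅ := hO.B_empty ⟨x0, hx0⟩
    have hXe : ∀ x ∈ X, x = x0 := fun x hx => eq_of_ncard_le_one hO.X_le hx hx0
    have hTA : ∀ x ∈ insert l T, x ≠ x0 → x ∈ A1 := by
      intro x hx hne
      rcases hO.A_sub hx with h1 | h1
      · exact h1
      · exact absurd (hXe _ h1) hne
    have hel : ∀ i, n i ≠ x0 → (n i ∈ U ∧ (n i ∈ Y ∨ n i ∈ A1) ∧ n i ≠ x0) :=
      fun i hi => ⟨hTU (hnT i), Or.inr (hTA _ (hnT i) hi), hi⟩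
    have hfin : ∀ i j k, i ≠ j → i ≠ k → j ≠ k → n i ≠ x0 → n j ≠ x0 → n k ≠ x0 → False := by
      intro i j k hij hik hjk hi hj hk
      refine h.w3.obs_false (p1 := x0) (D := Y) (A1 := A1) (κ := κ) (ρ := ρ) ?_ ?_ ?_ ?_
        ?_ (hn.ne hij) (hn.ne hik) (hn.ne hjk) (hel i hi) (hel j hj) (hel k hk)
      · intro x hx y hxy
        rcases hnb x hx y hxy with h1 | h1
        · exact Or.inl h1
        · by_cases h2 : y = x0
          · exact Or.inr (Or.inl h2)
          · exact Or.inr (Or.inr (hTA y h1 h2))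
      · intro x hx y hy hxy
        exact h.bal x y hx hxy
      · intro x hx y hyA hyY _ hxy
        rw [hρ y ((hnb x hx y hxy).resolve_left hyY) hyA]
        exact h.bal x y hx hxy
      · intro x hx y hy hxY hyY _ _ hxy
        rcases hdich x y hxY hyY hxy with h1 | ⟨h1, h2, h3⟩
        · exact hO.edge x hx y hy h1 (by rw [hB]; simp)
        · rw [hρ x h1 hx, hρ y h2 hy]; exact h3.symm
      · intro u hu w hw hne huY hwY _ _ u' w' huu hww p hp
        have hnT' : ∀ x ∈ p.support, x ∉ insert l T := by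
          intro x hx hxT
          exact (hp x hx).1 (hTA x hxT (hp x hx).2.2)
        obtain ⟨r, hr⟩ := exists_walk_mG (Y := Y) (l := l) (T := F) p
          (fun x hx => ⟨(hp x hx).2.1, fun hh => hnT' x hx (Or.inl hh)⟩)
        have hu' := hp u' p.start_mem_support
        have hw' := hp w' p.end_mem_support
        have hu1 : H.Adj u u' := (hdich u u' huY hu'.2.1 huu).resolve_right
          (fun hh => hnT' u' p.start_mem_support hh.2.1)
        have hw1 : H.Adj w w' := (hdich w w' hwY hw'.2.1 hww).resolve_right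
          (fun hh => hnT' w' p.end_mem_support hh.2.1)
        have h1 := hO.walk u hu w hw hne u' w' hu1 hw1 r (by
            intro x hx
            rw [hr] at hx
            exact ⟨(hp x hx).1, fun h2 => (hp x hx).2.2 (hXe x h2)⟩)
        rw [hB] at h1
        exact h1.1
    by_cases h0 : n 0 = x0
    · exact hfin 1 2 3 (by decide) (by decide) (by decide)
        (fun h1 => absurd (hn (h1.trans h0.symm)) (by decide))
        (fun h1 => absurd (hn (h1.trans h0.symm)) (by decide))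
        (fun h1 => absurd (hn (h1.trans h0.symm)) (by decide))
    by_cases h1 : n 1 = x0
    · exact hfin 0 2 3 (by decide) (by decide) (by decide) h0
        (fun h2 => absurd (hn (h2.trans h1.symm)) (by decide))
        (fun h2 => absurd (hn (h2.trans h1.symm)) (by decide))
    by_cases h2 : n 2 = x0
    · exact hfin 0 1 3 (by decide) (by decide) (by decide) h0 h1
        (fun h3 => absurd (hn (h3.trans h2.symm)) (by decide))
    · exact hfin 0 1 2 (by decide) (by decide) (by decide) h0 h1 h2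
  · have hXe : ∀ x, x ∉ X := fun x hx => hX ⟨x, hx⟩
    have hTA : ∀ x ∈ insert l T, x ∈ A1 := fun x hx => (hO.A_sub hx).resolve_right (hXe _)
    have hclosed : ∀ x y, x ∈ A1 → x ∉ B → H.Adj x y → y ∈ A1 := by
      intro x y hx hxB hxy
      by_contra hyA
      set C : Set V := Reach H {y} (A1 ∪ X) with hC
      have hyC : y ∈ C := reach_of_mem rfl (by
        rintro (h1 | h1)
        · exact hyA h1
        · exact hXe _ h1)
      have hCA : ∀ z ∈ C, z ∉ A1 := fun z hz h1 => not_mem_of_reach hz (Or.inl h1)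
      have hCm : ∀ z ∈ C, z ∉ Y ∧ z ∈ U := by
        rintro z ⟨a, ha, p, hp⟩
        rw [Set.mem_singleton_iff] at ha
        subst ha
        refine ⟨?_, ?_⟩
        · exact notMem_of_mem_support_delG (p.mapLe (mG_le_delG G Y l F)) hxy.2.2.1 z (by
            rw [Walk.support_mapLe_eq_support]; exact p.end_mem_support)
        by_cases haz : a = z
        · subst haz
          exact h.w3.edge_mem _ _ hxy.1.symm
        · obtain ⟨w, hw, -⟩ := exists_last_edge p haz
          exact h.w3.edge_mem _ _ hw.1.symm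
      have hxN : x ∈ Nb H C := ⟨fun h1 => hCA x h1 hx, y, hyC, hxy.symm⟩
      have hNC : Nb G C ⊆ {x} := by
        rintro w ⟨hwC, z, hz, hzw⟩
        have hz' := hCm z hz
        by_cases hwY : w ∈ Y
        · exfalso
          rcases hnb w hwY z hzw.symm with h1 | h1
          · exact hz'.1 h1
          · exact hCA z hz (hTA z h1)
        have hzw' : H.Adj z w := (hdich z w hz'.1 hwY hzw).resolve_right
          (fun hh => hCA z hz (hTA z hh.1))
        have hwN : w ∈ Nb H C := ⟨hwC, z, hz, hzw'⟩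
        have hwA : w ∈ A1 := by
          rcases Nb_Reach hwN with h2 | h2
          · exact h2
          · exact absurd h2 (hXe _)
        rw [Set.mem_singleton_iff]
        by_contra hne
        exact hxB (obs_comp hO subset_rfl hwA hwN hx hxN hne).2
      have hN1 := Set.ncard_le_ncard hNC (Set.toFinite _)
      rw [Set.ncard_singleton] at hN1
      by_cases h2 : 2 ≤ C.ncard
      · have hrest := h.w3.conn C (fun z hz => (hCm z hz).2) h2 (by omega)
        have hr : ∀ i, n i ≠ x → n i ∈ U \ (C ∪ Nb G C) := by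
          intro i hi
          refine ⟨hTU (hnT i), ?_⟩
          rintro (h1 | h1)
          · exact hCA _ h1 (hTA _ (hnT i))
          · exact hi (hNC h1)
        by_cases h0 : n 0 = x
        · have h3 := eq_of_ncard_le_one hrest
            (hr 1 (fun h1 => absurd (hn (h1.trans h0.symm)) (by decide)))
            (hr 2 (fun h1 => absurd (hn (h1.trans h0.symm)) (by decide)))
          exact absurd (hn h3) (by decide)
        by_cases h1 : n 1 = x
        · have h3 := eq_of_ncard_le_one hrest (hr 0 h0)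
            (hr 2 (fun h2 => absurd (hn (h2.trans h1.symm)) (by decide)))
          exact absurd (hn h3) (by decide)
        · have h3 := eq_of_ncard_le_one hrest (hr 0 h0) (hr 1 h1)
          exact absurd (hn h3) (by decide)
      · have h3 : C = {y} := by
          apply (Set.eq_of_subset_of_ncard_le _ _ (Set.toFinite _)).symm
          · rintro z rfl; exact hyC
          · rw [Set.ncard_singleton]; omega
        rw [h3, Nb_singleton] at hN1
        have h4 := h.w3.deg2 y (hCm y hyC).2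
        omega
    set Y' : Set V := {x | x ∈ U ∧ (x ∈ Y ∨ (x ∈ A1 ∧ x ∉ B))} with hY'
    set κ' : V → ZMod 2 := fun x => if x ∈ Y then κ x else ρ x with hκ'
    have k1 : ∀ x, x ∈ Y → κ' x = κ x := by
      intro x hx; rw [hκ']; simp only [if_pos hx]
    have k2 : ∀ x, x ∉ Y → κ' x = ρ x := by
      intro x hx; rw [hκ']; simp only [if_neg hx]
    have hstep : ∀ u w, u ∈ Y' → G.Adj u w → (w ∈ Y' ∨ w ∈ B) ∧ 1 = κ' u + κ' w := by
      intro u w hu huw
      have hwU := h.w3.edge_mem w u huw.symm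
      have hmem : ∀ z, z ∈ U → z ∈ A1 → z ∈ Y' ∨ z ∈ B := by
        intro z h1 h2
        by_cases h4 : z ∈ B
        · exact Or.inr h4
        · exact Or.inl ⟨h1, Or.inr ⟨h2, h4⟩⟩
      have gY : ∀ x y, x ∈ Y → G.Adj x y → 1 = κ' x + κ' y := by
        intro x y hx hxy
        rw [k1 x hx]
        by_cases hy : y ∈ Y
        · rw [k1 y hy]; exact h.bal x y hx hxy
        · have hyT := (hnb x hx y hxy).resolve_left hy
          rw [k2 y hy, hρ y hyT (hTA y hyT)]
          exact h.bal x y hx hxy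
      by_cases huY : u ∈ Y
      · refine ⟨?_, gY u w huY huw⟩
        rcases hnb u huY w huw with h1 | h1
        · exact Or.inl ⟨hwU, Or.inl h1⟩
        · exact hmem w hwU (hTA w h1)
      by_cases hwY : w ∈ Y
      · exact ⟨Or.inl ⟨hwU, Or.inl hwY⟩, by
          rw [add_comm]; exact gY w u hwY huw.symm⟩
      · have hu' := hu.2.resolve_left huY
        rcases hdich u w huY hwY huw with hH' | ⟨h1, h2, h3⟩
        · have hwA := hclosed u w hu'.1 hu'.2 hH'
          refine ⟨hmem w hwU hwA, ?_⟩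
          rw [k2 u huY, k2 w hwY]
          exact hO.edge u hu'.1 w hwA hH' (fun h3 => hu'.2 h3.1)
        · refine ⟨hmem w hwU (hTA w h2), ?_⟩
          rw [k2 u huY, k2 w hwY, hρ u h1 (hTA u h1), hρ w h2 (hTA w h2)]
          exact h3.symm
    obtain ⟨i, hi⟩ : ∃ i, n i ∉ B := by
      by_contra hcon
      push Not at hcon
      have h1 : Set.range n ⊆ B := by
        rintro _ ⟨i, rfl⟩; exact hcon i
      have h2 := Set.ncard_le_ncard h1 (Set.toFinite _)
      rw [hn', h4] at h2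
      have := hO.B_le
      omega
    refine ⟨Y', κ', fun x hx => ⟨h.YU hx, Or.inl hx⟩,
      ⟨n i, hnT i, hTU (hnT i), Or.inr ⟨hTA _ (hnT i), hi⟩⟩, fun x hx => hx.1, ?_,
      fun u w hu huw => (hstep u w hu huw).2, ?_⟩
    · obtain ⟨y0, hy0⟩ := h.Y_nonempty
      refine two_le_ncard_of (a := y0) (b := n i) ⟨h.YU hy0, Or.inl hy0⟩
        ⟨hTU (hnT i), Or.inr ⟨hTA _ (hnT i), hi⟩⟩ ?_
      rintro rfl
      exact hTY _ (hnT i) hy0
    · have h1 : Nb G Y' ⊆ B := by
        rintro w ⟨hw, u, hu, huw⟩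
        exact (hstep u w hu huw).1.resolve_left hw
      exact (Set.ncard_le_ncard h1 (Set.toFinite _)).trans hO.B_le

/-- **Lemma PF.** -/
theorem PF.main [Finite V] (h : PF G U Y l T F κ) :
    HasTOK4s G (One V) ∨
    (∃ Y' κ', Y ⊆ Y' ∧ (∃ t ∈ insert l T, t ∈ Y') ∧ Y' ⊆ U ∧ 2 ≤ Y'.ncard ∧
      BalOn G (One V) Y' κ' ∧ (Nb G Y').ncard ≤ 3) ∨
    ∃ t0 b2 b3, T = {t0, b2, b3} ∧ t0 ∉ F ∧ G.Adj l t0 ∧ κ l = κ t0 ∧ ∃ Q : G.Walk b2 b3,
      Q.IsPath ∧ wt (One V) Q = κ b2 + κ b3 + 1 ∧ ∀ x ∈ Q.support, x ∉ Y ∧ x ≠ l ∧ x ≠ t0 := by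
  rcases pack4 (mG G Y l F) (One V) κ (insert l T) h.ncard4 with hT | ⟨X, A1, B, ρ, hO⟩
  · rcases h.tok_of_two h.hnd hT with h1 | h1
    · exact Or.inl h1
    · exact Or.inr (Or.inr h1)
  · exact Or.inr (Or.inl (h.of_obs hO))

end Pool.Agent.Helper97.PH
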